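import Mathlib

set_option autoImplicit false

namespace Pool.Agent.Helper69.OLB

theorem lin_disj {R : Type} [CommRing R] [Algebra ℂ R]
    {K₀ K : Type} [Field K₀] [Algebra ℂ K₀] [Field K] [Algebra ℂ K] [Algebra K₀ K]
    [IsScalarTower ℂ K₀ K] (𝔴 : Set (Derivation ℂ K₀ K₀)) {z : R →ₐ[ℂ] K}
    (hz : Function.Injective z)
    (hext : ∀ D ∈ 𝔴, ∃ D' : Derivation ℂ K K,
      (∀ c : K₀, D' (algebraMap K₀ K c) = algebraMap K₀ K (D c)) ∧ ∀ r, D' (z r) = 0)
    (hconst : ∀ c : K₀, (∀ D ∈ 𝔴, D c = 0) → c ∈ Set.range (algebraMap ℂ K₀)) {m : ℕ}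
    {r : Fin m → R} (hr : LinearIndependent ℂ r) : LinearIndependent K₀ fun i => z (r i) := by
  classical
  -- minimal support
  by_contra hdep
  have hex : ∃ n : ℕ, ∃ c : Fin m → K₀, c ≠ 0 ∧ ∑ i, c i • z (r i) = 0 ∧
      (Finset.univ.filter fun i => c i ≠ 0).card = n := by
    rw [Fintype.linearIndependent_iff] at hdep
    push Not at hdep
    obtain ⟨c, h1, i, hi⟩ := hdep
    exact ⟨_, c, fun h => hi (by rw [h]; rfl), h1, rfl⟩
  obtain ⟨c, hc0, hc, hn⟩ := Nat.find_spec hex
  have hmin := fun k (hk : k < Nat.find hex) => Nat.find_min hex hk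
  obtain ⟨i₀, hi₀⟩ : ∃ i, c i ≠ 0 := by
    by_contra h
    push Not at h
    exact hc0 (funext h)
  -- normalise
  obtain ⟨b, hb⟩ : ∃ b : Fin m → K₀, b = fun i => (c i₀)⁻¹ * c i := ⟨_, rfl⟩
  have hb0 : b i₀ = 1 := by
    rw [hb]
    exact inv_mul_cancel₀ hi₀
  have hbz : ∀ i, b i = 0 ↔ c i = 0 := by
    intro i
    rw [hb]
    simp [hi₀]
  have hbs : ∑ i, b i • z (r i) = 0 := by
    have : ∑ i, b i • z (r i) = (c i₀)⁻¹ • ∑ i, c i • z (r i) := by
      rw [Finset.smul_sum]
      refine Finset.sum_congr rfl fun i _ => ?_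
      rw [hb, smul_smul]
    rw [this, hc, smul_zero]
  -- the coefficients are constants
  have hcon : ∀ i, ∀ D ∈ 𝔴, D (b i) = 0 := by
    intro i D hD
    obtain ⟨D', h1, h2⟩ := hext D hD
    have h3 : ∑ i, D (b i) • z (r i) = 0 := by
      have h4 := congrArg D' hbs
      rw [map_sum, map_zero] at h4
      rw [← h4]
      refine Finset.sum_congr rfl fun i _ => ?_
      rw [Algebra.smul_def, Algebra.smul_def, Derivation.leibniz, h2, smul_zero, zero_add, h1,
        smul_eq_mul, mul_comm]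
    by_contra hne
    have hlt : (Finset.univ.filter fun i => D (b i) ≠ 0).card < Nat.find hex := by
      rw [← hn]
      refine Finset.card_lt_card ⟨fun j hj => ?_, fun hsub => ?_⟩
      · simp only [Finset.mem_filter, Finset.mem_univ, true_and] at hj ⊢
        intro hcj
        apply hj
        rw [(hbz j).2 hcj, map_zero]
      · have h5 : i₀ ∈ Finset.univ.filter fun i => D (b i) ≠ 0 :=
          hsub (by simp [hi₀])
        simp only [Finset.mem_filter, Finset.mem_univ, true_and] at h5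
        apply h5
        rw [hb0]
        exact D.map_one_eq_zero
    exact hmin _ hlt ⟨fun i => D (b i), fun h => hne (congrFun h i), h3, rfl⟩
  choose a ha using fun i => hconst (b i) (hcon i)
  have h6 : z (∑ i, a i • r i) = 0 := by
    rw [map_sum, ← hbs]
    refine Finset.sum_congr rfl fun i _ => ?_
    rw [map_smul, ← ha i, algebraMap_smul]
  have h7 : ∑ i, a i • r i = 0 := hz (by rw [h6, map_zero])
  have h8 := Fintype.linearIndependent_iff.1 hr a h7 i₀
  have h9 := ha i₀
  rw [h8, map_zero, hb0] at h9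
  exact zero_ne_one h9

end Pool.Agent.Helper69.OLB
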